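import Mathlib

namespace Pool.Agent.H.MP_b7cbb2_co

open scoped Pointwise
open PowerSeries

def T (k m : ℕ) : Set (Fin k → ℕ) := {f | ∑ i, f i = m}

lemma T_eq (k m : ℕ) : T k m =
    (fun f : Fin k →₀ ℕ => (f : Fin k → ℕ)) '' ((Finset.univ : Finset (Fin k)).finsuppAntidiag m) := by
  ext f
  simp only [T, Set.mem_ofPred_eq, Set.mem_image, Finset.mem_coe, Finset.mem_finsuppAntidiag,
    Finset.subset_univ, and_true]
  constructor
  · intro h
    exact ⟨Finsupp.equivFunOnFinite.symm f, h, rfl⟩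
  · rintro ⟨g, h, rfl⟩
    exact h

lemma T_fin (k m : ℕ) : (T k m).Finite := by
  rw [T_eq]
  exact (Finset.finite_toSet _).image _

lemma T_card' (k m : ℕ) : (T (k + 1) m).ncard = (k + m).choose k := by
  rw [T_eq, Set.ncard_image_of_injective _ DFunLike.coe_injective, Set.ncard_coe_finset,
    Finset.card_finsuppAntidiag_nat_eq_choose, Finset.card_univ, Fintype.card_fin,
    show k + 1 + m - 1 = k + m by omega, Nat.choose_symm_add]

lemma T6 (m : ℕ) : (T 6 m).ncard = (5 + m).choose 5 := T_card' 5 m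

lemma T3 (m : ℕ) : (T 3 m).ncard = (2 + m).choose 2 := T_card' 2 m

def V : Finset (Fin 5 → ℤ) :=
  {![1, 0, 0, 0, 0], ![0, 1, 0, 0, 0], ![0, 0, 1, 0, 0], ![0, 0, 0, 1, 0], ![0, 0, 0, 0, 1],
    ![1, 1, 1, -1, -1]}

def P : Set (Fin 5 → ℝ) :=
  convexHull ℝ ((fun v : Fin 5 → ℤ => fun j => ((v j : ℤ) : ℝ)) '' (V : Set (Fin 5 → ℤ)))

def Ineq {R : Type} [Ring R] [LE R] (x : Fin 5 → R) (m : R) : Prop :=
  x 0 + x 1 + x 2 + x 3 + x 4 = m ∧ 0 ≤ x 0 ∧ 0 ≤ x 1 ∧ 0 ≤ x 2 ∧ 0 ≤ x 0 + x 3 ∧ 0 ≤ x 1 + x 3 ∧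
    0 ≤ x 2 + x 3 ∧ 0 ≤ x 0 + x 4 ∧ 0 ≤ x 1 + x 4 ∧ 0 ≤ x 2 + x 4

lemma P_sub {y : Fin 5 → ℝ} (hy : y ∈ P) : Ineq y 1 := by
  have : P ⊆ {y | Ineq y 1} := by
    apply convexHull_min
    · rintro _ ⟨v, hv, rfl⟩
      simp only [V, Finset.coe_insert, Finset.coe_singleton, Set.mem_insert_iff,
        Set.mem_singleton_iff] at hv
      rcases hv with rfl | rfl | rfl | rfl | rfl | rfl <;> simp [Ineq]
    · rintro u ⟨h0, h1, h2, h3, h4, h5, h6, h7, h8, h9⟩ w ⟨g0, g1, g2, g3, g4, g5, g6, g7, g8, g9⟩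
        a b ha hb hab
      simp only [Ineq, Set.mem_ofPred_eq, Pi.add_apply, Pi.smul_apply, smul_eq_mul]
      refine ⟨by linear_combination a * h0 + b * g0 + hab, by positivity, by positivity,
        by positivity, ?_, ?_, ?_, ?_, ?_, ?_⟩
      · nlinarith [mul_nonneg ha h4, mul_nonneg hb g4]
      · nlinarith [mul_nonneg ha h5, mul_nonneg hb g5]
      · nlinarith [mul_nonneg ha h6, mul_nonneg hb g6]
      · nlinarith [mul_nonneg ha h7, mul_nonneg hb g7]
      · nlinarith [mul_nonneg ha h8, mul_nonneg hb g8]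
      · nlinarith [mul_nonneg ha h9, mul_nonneg hb g9]
  exact this hy

def vv : Fin 6 → Fin 5 → ℝ :=
  ![![1, 0, 0, 0, 0], ![0, 1, 0, 0, 0], ![0, 0, 1, 0, 0], ![0, 0, 0, 1, 0], ![0, 0, 0, 0, 1],
    ![1, 1, 1, -1, -1]]

lemma vv_mem (i : Fin 6) : vv i ∈ P := by
  apply subset_convexHull
  fin_cases i
  · exact ⟨![1, 0, 0, 0, 0], by simp [V], by ext j; fin_cases j <;> simp [vv]⟩
  · exact ⟨![0, 1, 0, 0, 0], by simp [V], by ext j; fin_cases j <;> simp [vv]⟩
  · exact ⟨![0, 0, 1, 0, 0], by simp [V], by ext j; fin_cases j <;> simp [vv]⟩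
  · exact ⟨![0, 0, 0, 1, 0], by simp [V], by ext j; fin_cases j <;> simp [vv]⟩
  · exact ⟨![0, 0, 0, 0, 1], by simp [V], by ext j; fin_cases j <;> simp [vv]⟩
  · exact ⟨![1, 1, 1, -1, -1], by simp [V], by ext j; fin_cases j <;> simp [vv]⟩

def pr (f : Fin 6 → ℕ) : Fin 5 → ℤ :=
  ![(f 0 : ℤ) + f 5, (f 1 : ℤ) + f 5, (f 2 : ℤ) + f 5, (f 3 : ℤ) - f 5, (f 4 : ℤ) - f 5]

lemma ex_pr {x : Fin 5 → ℤ} {m : ℕ} (h : Ineq x m) :
    ∃ f, f ∈ T 6 m ∧ ¬ (1 ≤ f 3 ∧ 1 ≤ f 4 ∧ 1 ≤ f 5) ∧ pr f = x := by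
  obtain ⟨h0, h1, h2, h3, h4, h5, h6, h7, h8, h9⟩ := h
  obtain ⟨t, ht⟩ : ∃ t : ℤ, 0 ≤ t ∧ -x 3 ≤ t ∧ -x 4 ≤ t ∧ (t = 0 ∨ t = -x 3 ∨ t = -x 4) :=
    ⟨max 0 (max (-x 3) (-x 4)), by omega⟩
  refine ⟨![(x 0 - t).toNat, (x 1 - t).toNat, (x 2 - t).toNat, (x 3 + t).toNat, (x 4 + t).toNat,
    t.toNat], ?_, ?_, ?_⟩
  · simp only [T, Set.mem_ofPred_eq, Fin.sum_univ_six]
    simp only [Matrix.cons_val]
    omega
  · simp only [Matrix.cons_val]
    omega
  · ext j
    fin_cases j <;> simp [pr] <;> omega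

lemma mem_iff (x : Fin 5 → ℤ) (m : ℕ) :
    (fun j => ((x j : ℤ) : ℝ)) ∈ (m : ℝ) • P ↔ Ineq x m := by
  constructor
  · rintro ⟨y, hy, h⟩
    obtain ⟨h0, h1, h2, h3, h4, h5, h6, h7, h8, h9⟩ := P_sub hy
    have e : ∀ j, ((x j : ℤ) : ℝ) = m * y j := fun j => by
      have := congrFun h j
      simpa using this.symm
    have hm : (0 : ℝ) ≤ m := Nat.cast_nonneg m
    have : Ineq (fun j => ((x j : ℤ) : ℝ)) (m : ℝ) := by
      simp only [Ineq, e, ← mul_add]
      refine ⟨by rw [h0, mul_one], ?_, ?_, ?_, ?_, ?_, ?_, ?_, ?_, ?_⟩ <;> positivity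
    simp only [Ineq] at this ⊢
    exact_mod_cast this
  · intro h
    obtain ⟨f, hf, -, rfl⟩ := ex_pr h
    simp only [T, Set.mem_ofPred_eq] at hf
    rcases Nat.eq_zero_or_pos m with rfl | hm
    · refine ⟨vv 0, vv_mem 0, ?_⟩
      have : ∀ i, f i = 0 := fun i => by
        rw [Finset.sum_eq_zero_iff] at hf
        exact hf i (Finset.mem_univ i)
      ext j
      fin_cases j <;> simp [pr, this]
    · have hm' : (m : ℝ) ≠ 0 := by positivity
      refine ⟨∑ i, ((f i : ℝ) / m) • vv i, ?_, ?_⟩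
      · refine (convex_convexHull ℝ _).sum_mem (fun i _ => by positivity) ?_ fun i _ => vv_mem i
        rw [← Finset.sum_div, ← Nat.cast_sum, hf, div_self hm']
      · ext j
        fin_cases j <;> simp [pr, vv, Fin.sum_univ_six] <;> field_simp <;> ring

def sh (f : Fin 6 → ℕ) : Fin 6 → ℕ := ![f 0, f 1, f 2, f 3 + 1, f 4 + 1, f 5 + 1]

lemma count1 (m : ℕ) : {x : Fin 5 → ℤ | Ineq x m}.ncard +
    (if 3 ≤ m then (5 + (m - 3)).choose 5 else 0) = (5 + m).choose 5 := by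
  have e1 : {x : Fin 5 → ℤ | Ineq x m} =
      pr '' (T 6 m \ {f | 1 ≤ f 3 ∧ 1 ≤ f 4 ∧ 1 ≤ f 5}) := by
    ext x
    constructor
    · intro h
      obtain ⟨f, h1, h2, h3⟩ := ex_pr h
      exact ⟨f, ⟨h1, h2⟩, h3⟩
    · rintro ⟨f, ⟨h1, -⟩, rfl⟩
      simp only [T, Set.mem_ofPred_eq, Fin.sum_univ_six] at h1
      simp only [Ineq, pr, Set.mem_ofPred_eq, Matrix.cons_val]
      omega
  have e2 : Set.InjOn pr (T 6 m \ {f | 1 ≤ f 3 ∧ 1 ≤ f 4 ∧ 1 ≤ f 5}) := by
    rintro f ⟨-, hf⟩ g ⟨-, hg⟩ h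
    have h0 := congrFun h 0
    have h1 := congrFun h 1
    have h2 := congrFun h 2
    have h3 := congrFun h 3
    have h4 := congrFun h 4
    simp only [pr, Matrix.cons_val] at h0 h1 h2 h3 h4
    simp only [Set.mem_ofPred_eq] at hf hg
    ext j
    fin_cases j <;> simp only [Fin.reduceFinMk, Fin.zero_eta, Fin.mk_one] <;> omega
  have e3 : (T 6 m ∩ {f | 1 ≤ f 3 ∧ 1 ≤ f 4 ∧ 1 ≤ f 5}).ncard =
      if 3 ≤ m then (5 + (m - 3)).choose 5 else 0 := by
    split_ifs with h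
    · have inj : Function.Injective sh := by
        intro f g h
        have h0 := congrFun h 0
        have h1 := congrFun h 1
        have h2 := congrFun h 2
        have h3 := congrFun h 3
        have h4 := congrFun h 4
        have h5 := congrFun h 5
        simp only [sh, Matrix.cons_val] at h0 h1 h2 h3 h4 h5
        ext j
        fin_cases j <;> simp only [Fin.reduceFinMk, Fin.zero_eta, Fin.mk_one] <;> omega
      rw [← T6, ← Set.ncard_image_of_injective (T 6 (m - 3)) inj]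
      congr 1
      ext f
      simp only [Set.mem_inter_iff, Set.mem_image]
      simp only [T, Set.mem_ofPred_eq, Fin.sum_univ_six]
      constructor
      · rintro ⟨h1, h2, h3, h4⟩
        refine ⟨![f 0, f 1, f 2, f 3 - 1, f 4 - 1, f 5 - 1], ?_, ?_⟩
        · simp only [Matrix.cons_val]
          omega
        · ext j
          fin_cases j <;> simp [sh] <;> omega
      · rintro ⟨g, h1, rfl⟩
        simp only [sh, Matrix.cons_val]
        omega
    · rw [Set.ncard_eq_zero ((T_fin 6 m).inter_of_left _)]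
      ext f
      simp only [T, Set.mem_inter_iff, Set.mem_ofPred_eq, Fin.sum_univ_six, Set.mem_empty_iff_false,
        iff_false]
      omega
  rw [e1, e2.ncard_image, ← e3, ← T6 m, add_comm,
    Set.ncard_inter_add_ncard_sdiff_eq_ncard _ _ (T_fin 6 m)]

def s : Matrix (Fin 5) (Fin 5) ℤ :=
  !![0, 0, 1, 1, 0; 0, 0, 1, 0, 1; 0, 0, 1, 0, 0; 1, 0, -1, 0, 0; 0, 1, -1, 0, 0]

lemma fix_iff (x : Fin 5 → ℤ) : s.mulVec x = x ↔ x 0 = x 2 + x 3 ∧ x 1 = x 2 + x 4 := by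
  rw [funext_iff]
  simp only [Fin.forall_fin_succ, s, Matrix.mulVec, dotProduct, Fin.sum_univ_five]
  simp
  omega

def q (e : ℕ) (f : Fin 3 → ℕ) : Fin 5 → ℤ :=
  ![(f 0 : ℤ) + f 2 + e, (f 1 : ℤ) + f 2 + e, 2 * (f 2 : ℤ) + e, (f 0 : ℤ) - f 2, (f 1 : ℤ) - f 2]

lemma q_inj (e : ℕ) : Function.Injective (q e) := by
  intro f g h
  have h0 := congrFun h 0
  have h1 := congrFun h 1
  have h2 := congrFun h 2
  simp only [q, Matrix.cons_val] at h0 h1 h2
  ext j
  fin_cases j <;> simp only [Fin.reduceFinMk, Fin.zero_eta, Fin.mk_one] <;> omega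

lemma count2' (e k : ℕ) (he : e ≤ 1) :
    {x : Fin 5 → ℤ | Ineq x (2 * k + 3 * e : ℕ) ∧ s.mulVec x = x}.ncard = (2 + k).choose 2 := by
  rw [← T3, ← Set.ncard_image_of_injective (T 3 k) (q_inj e)]
  congr 1
  ext x
  simp only [T, Set.mem_ofPred_eq, Set.mem_image, Fin.sum_univ_three, fix_iff, Ineq]
  constructor
  · intro h
    refine ⟨![((x 0 + x 3) / 2).toNat, ((x 1 + x 4) / 2).toNat, (x 2 / 2).toNat], ?_, ?_⟩
    · simp only [Matrix.cons_val]
      omega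
    · ext j
      fin_cases j <;> simp [q] <;> omega
  · rintro ⟨g, h1, rfl⟩
    simp only [q, Matrix.cons_val]
    omega

lemma count2 (m : ℕ) : {x : Fin 5 → ℤ | Ineq x m ∧ s.mulVec x = x}.ncard =
    (if 2 ∣ m then (2 + m / 2).choose 2 else 0) +
      (if 3 ≤ m then (if 2 ∣ m - 3 then (2 + (m - 3) / 2).choose 2 else 0) else 0) := by
  by_cases h : 2 ∣ m
  · have := count2' 0 (m / 2) (by norm_num)
    rw [show 2 * (m / 2) + 3 * 0 = m by omega] at this
    rw [this, if_pos h]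
    split_ifs <;> omega
  · by_cases h3 : 3 ≤ m
    · have := count2' 1 ((m - 3) / 2) (by norm_num)
      rw [show 2 * ((m - 3) / 2) + 3 * 1 = m by omega] at this
      rw [this, if_neg h, if_pos h3, if_pos (by omega), zero_add]
    · rw [if_neg h, if_neg h3]
      have : m = 1 := by omega
      subst this
      convert Set.ncard_empty (Fin 5 → ℤ)
      ext x
      simp only [Set.mem_ofPred_eq, fix_iff, Ineq, Set.mem_empty_iff_false, iff_false]
      omega

lemma gf1 : (mk fun m : ℕ => (({x : Fin 5 → ℤ | Ineq x m}.ncard : ℕ) : ℤ)) * (1 - X) * (1 - X) ^ 4 =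
    1 + X + X ^ 2 := by
  have h := mk_add_choose_mul_one_sub_pow_eq_one ℤ 5
  set S : ℤ⟦X⟧ := mk fun n => (Nat.choose (5 + n) 5 : ℤ) with hS
  have e : (mk fun m : ℕ => (({x : Fin 5 → ℤ | Ineq x m}.ncard : ℕ) : ℤ)) = S - X ^ 3 * S := by
    ext m
    rw [map_sub, coeff_X_pow_mul', hS, coeff_mk, coeff_mk, coeff_mk, ← count1 m]
    split_ifs <;> simp
  have hne : (1 - X : ℤ⟦X⟧) ≠ 0 := by
    intro h0
    have := congrArg constantCoeff h0
    simp at this
  apply mul_right_cancel₀ hne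
  rw [e]
  linear_combination (1 - X ^ 3) * h

lemma gf2 : (mk fun m : ℕ => (({x : Fin 5 → ℤ | Ineq x m ∧ s.mulVec x = x}.ncard : ℕ) : ℤ)) *
    (1 - X) * (1 - X ^ 2) ^ 2 = 1 - X + X ^ 2 := by
  have h := congrArg (expand 2 two_ne_zero) (mk_add_choose_mul_one_sub_pow_eq_one ℤ 2)
  simp only [map_mul, map_pow, map_sub, map_one, expand_X] at h
  set S : ℤ⟦X⟧ := expand 2 two_ne_zero (mk fun n => (Nat.choose (2 + n) 2 : ℤ)) with hS
  have e : (mk fun m : ℕ => (({x : Fin 5 → ℤ | Ineq x m ∧ s.mulVec x = x}.ncard : ℕ) : ℤ)) =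
      S + X ^ 3 * S := by
    ext m
    rw [map_add, coeff_X_pow_mul', hS, coeff_expand, coeff_expand, coeff_mk, coeff_mk, coeff_mk,
      count2 m]
    split_ifs <;> simp
  have hne : (1 + X : ℤ⟦X⟧) ≠ 0 := by
    intro h0
    have := congrArg constantCoeff h0
    simp at this
  apply mul_right_cancel₀ hne
  rw [e]
  linear_combination (1 + X ^ 3) * h

lemma ss : s * s = 1 := by decide

def su : Matrix.GeneralLinearGroup (Fin 5) ℤ := ⟨s, s, ss, ss⟩

lemma su_sq : su * su = 1 := Units.ext ss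

def rho : ℤˣ →* Matrix.GeneralLinearGroup (Fin 5) ℤ where
  toFun g := if g = 1 then 1 else su
  map_one' := by simp
  map_mul' g h := by
    rcases Int.units_eq_one_or g with rfl | rfl <;> rcases Int.units_eq_one_or h with rfl | rfl <;>
      simp [su_sq]

lemma rho_one : (rho 1 : Matrix (Fin 5) (Fin 5) ℤ) = 1 := by simp

lemma rho_neg : (rho (-1) : Matrix (Fin 5) (Fin 5) ℤ) = s := by
  have : rho (-1) = su := by simp [rho]
  rw [this]
  rfl

def im : Matrix (Fin 5) (Fin 4) ℤ :=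
  !![1, 0, 0, 0; 0, 1, 0, 0; -1, -1, -1, -1; 0, 0, 1, 0; 0, 0, 0, 1]

def s' : Matrix (Fin 4) (Fin 4) ℤ := !![-1, -1, 0, -1; -1, -1, -1, 0; 2, 1, 1, 1; 1, 2, 1, 1]

def sig (g : ℤˣ) : Matrix (Fin 4) (Fin 4) ℤ := if g = 1 then 1 else s'

lemma im_apply (y : Fin 4 → ℤ) :
    im.mulVecLin y = ![y 0, y 1, -y 0 - y 1 - y 2 - y 3, y 2, y 3] := by
  ext j
  fin_cases j <;> simp [im, Matrix.mulVec, dotProduct, Fin.sum_univ_four]
  ring

lemma im_inj : Function.Injective im.mulVecLin := by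
  intro y z h
  rw [im_apply, im_apply] at h
  have h0 := congrFun h 0
  have h1 := congrFun h 1
  have h3 := congrFun h 3
  have h4 := congrFun h 4
  simp only [Matrix.cons_val] at h0 h1 h3 h4
  ext j
  fin_cases j <;> assumption

lemma span_iff (x : Fin 5 → ℤ) :
    (∃ y : Fin 4 → ℤ, im.mulVecLin y = x) ↔ (fun j => ((x j : ℤ) : ℝ)) ∈ vectorSpan ℝ P := by
  constructor
  · rintro ⟨y, rfl⟩
    have h : ∀ i, vv i -ᵥ vv 2 ∈ vectorSpan ℝ P := fun i =>
      vsub_mem_vectorSpan ℝ (vv_mem i) (vv_mem 2)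
    have := Submodule.add_mem _ (Submodule.add_mem _ (Submodule.add_mem _
      (Submodule.smul_mem _ (y 0 : ℝ) (h 0)) (Submodule.smul_mem _ (y 1 : ℝ) (h 1)))
      (Submodule.smul_mem _ (y 2 : ℝ) (h 3))) (Submodule.smul_mem _ (y 3 : ℝ) (h 4))
    convert this using 1
    rw [im_apply]
    ext j
    fin_cases j <;> simp [vv]
    ring
  · intro h
    have key : ∀ z ∈ vectorSpan ℝ P, z 0 + z 1 + z 2 + z 3 + z 4 = 0 := by
      intro z hz
      rw [vectorSpan_def] at hz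
      induction hz using Submodule.span_induction with
      | mem z hz =>
        obtain ⟨u, hu, w, hw, rfl⟩ := hz
        have h1 := (P_sub hu).1
        have h2 := (P_sub hw).1
        simp only [vsub_eq_sub, Pi.sub_apply]
        linarith
      | zero => simp
      | add a b _ _ ha hb => simp only [Pi.add_apply]; linarith
      | smul c a _ ha =>
        simp only [Pi.smul_apply, smul_eq_mul]
        linear_combination c * ha
    have h1 := key _ h
    have h2 : x 0 + x 1 + x 2 + x 3 + x 4 = 0 := by exact_mod_cast h1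
    refine ⟨![x 0, x 1, x 3, x 4], ?_⟩
    rw [im_apply]
    ext j
    fin_cases j <;> simp
    omega

lemma comm (g : ℤˣ) (y : Fin 4 → ℤ) : im.mulVecLin ((sig g).mulVec y) =
    (rho g : Matrix (Fin 5) (Fin 5) ℤ).mulVec (im.mulVecLin y) := by
  rcases Int.units_eq_one_or g with rfl | rfl
  · simp [sig]
  · have : sig (-1) = s' := by simp [sig]
    rw [rho_neg, this, Matrix.mulVecLin_apply, Matrix.mulVecLin_apply, Matrix.mulVec_mulVec,
      Matrix.mulVec_mulVec, show im * s' = s * im by decide]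

lemma inv (g : ℤˣ) : ∀ v ∈ V, (rho g : Matrix (Fin 5) (Fin 5) ℤ).mulVec v ∈ V := by
  rcases Int.units_eq_one_or g with rfl | rfl
  · simp
  · rw [rho_neg]
    decide

lemma det1 : ((Matrix.det (1 - (Polynomial.X : Polynomial ℤ) • (sig 1).map Polynomial.C) :
    Polynomial ℤ) : PowerSeries ℤ) = (1 - X) ^ 4 := by
  have : (1 - (Polynomial.X : Polynomial ℤ) • (sig 1).map Polynomial.C) =
      (1 - Polynomial.X : Polynomial ℤ) • (1 : Matrix (Fin 4) (Fin 4) (Polynomial ℤ)) := by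
    simp [sig, sub_smul]
  rw [this, Matrix.det_smul]
  simp

lemma det2 : ((Matrix.det (1 - (Polynomial.X : Polynomial ℤ) • (sig (-1)).map Polynomial.C) :
    Polynomial ℤ) : PowerSeries ℤ) = (1 - X ^ 2) ^ 2 := by
  have h : sig (-1) = s' := by simp [sig]
  have : (1 - (Polynomial.X : Polynomial ℤ) • (sig (-1)).map Polynomial.C) =
      !![1 + Polynomial.X, Polynomial.X, 0, Polynomial.X;
        Polynomial.X, 1 + Polynomial.X, Polynomial.X, 0;
        -2 * Polynomial.X, -Polynomial.X, 1 - Polynomial.X, -Polynomial.X;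
        -Polynomial.X, -2 * Polynomial.X, -Polynomial.X, 1 - Polynomial.X] := by
    rw [h]
    ext1 i j
    fin_cases i <;> fin_cases j <;> simp [s'] <;> ring
  have e : Matrix.det (1 - (Polynomial.X : Polynomial ℤ) • (sig (-1)).map Polynomial.C) =
      (1 - Polynomial.X ^ 2) ^ 2 := by
    rw [this]
    simp [Matrix.det_succ_row_zero, Fin.sum_univ_succ, Fin.succAbove]
    ring
  rw [e]
  simp

end Pool.Agent.H.MP_b7cbb2_co
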